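import Pool.Agent.H37.CND.Stmts

/-!
# Row IND of the board `cnd`
-/

set_option autoImplicit false

namespace Pool.CND

open Finset

theorem UM.of_le {G : Type} [Group G] {b : G → ℤ} {I N : Subgroup G} (h : UM b I) (hN : N ≤ I) :
    UM b N :=
  ⟨fun g hg => h.pos g (hN hg), fun g hg => h.inv g (hN hg),
    fun g hg g' hg' => h.mul g (hN hg) g' (hN hg')⟩

theorem HB.of_le {G : Type} [Group G] [Fintype G] {p : ℕ} {b : G → ℤ} {I N : Subgroup G}
    (h : HB p b I) (hN : N ≤ I) : HB p b N :=
  fun N' I' h1 h2 => h N' I' h1 (h2.trans hN)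

theorem ind_thm (hM : S_MAX) (hC : S_CMB) (hE : S_ELA) : S_IND := by
  intro p G _ _ b I A d l hp
  induction d generalizing I l with
  | zero =>
    intro hU hH _ hA hEA hc hl
    have hIA : A = I := by
      apply Subgroup.eq_of_le_of_card_ge hA
      rw [hc, pow_zero, one_mul]
    subst hIA
    obtain ⟨z, -, hz⟩ := hE p G b A l hp hU hH hEA hl
    exact ⟨⟨z, by rw [pow_zero, one_mul, hz]⟩, fun _ h => absurd h (by norm_num)⟩
  | succ d ih =>
    intro hU hH hn hA hEA hc hl
    have hApos : 0 < Nat.card A := Nat.card_pos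
    have hne : A ≠ I := by
      intro h
      rw [← h] at hc
      have h1 : 1 < p ^ (d + 1) := Nat.one_lt_pow (by omega) hp.one_lt
      nlinarith
    obtain ⟨N, hAN, hNI, hcN, hnorm⟩ := hM p G I A hp hn hA hne
    have hcard : Nat.card N = p ^ d * Nat.card A := by
      have h1 : p * Nat.card N = p * (p ^ d * Nat.card A) := by
        rw [← hcN, hc, pow_succ]
        ring
      exact Nat.eq_of_mul_eq_mul_left hp.pos h1
    obtain ⟨B, hB, hBs⟩ := hH N I hNI le_rfl hcN hnorm
    have hNn : ∃ n : ℕ, Nat.card N = p ^ n := by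
      obtain ⟨n, hn⟩ := hn
      obtain ⟨m, -, hm⟩ := (Nat.dvd_prime_pow hp).1 (show Nat.card N ∣ p ^ n from
        ⟨p, by rw [← hn, hcN, mul_comm]⟩)
      exact ⟨m, hm⟩
    rcases (hC p G b N I B l hp hU hNI hcN hBs hl).1 with h | ⟨l', hl', h⟩
    · refine ⟨⟨(p : ℤ) ^ (d + 1) * B, by rw [h]; push_cast; ring⟩, fun _ _ => ?_⟩
      exact ⟨(2 : ℤ) ^ (d + 1 - 1) * B, by rw [h]; push_cast; ring⟩
    · have key := ih N l' (hU.of_le hNI) (hH.of_le hNI) hNn hAN hEA hcard hl'
      refine ⟨?_, fun h2 _ => ?_⟩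
      · obtain ⟨z, hz⟩ := key.1
        refine ⟨z + (p : ℤ) ^ d * ((p : ℤ) - 1) * B, ?_⟩
        push_cast
        rw [← hz, pow_succ, mul_assoc, h]
        ring
      · subst h2
        rcases Nat.eq_zero_or_pos d with hd | hd
        · subst hd
          have hNA : A = N := by
            apply Subgroup.eq_of_le_of_card_ge hAN
            rw [hcard, pow_zero, one_mul]
          subst hNA
          obtain ⟨z, hz1, hz⟩ := hE 2 G b A l' hp (hU.of_le hNI) (hH.of_le hNI) hEA hl'
          have h1 : (2 : ℤ) ∣ z + B := by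
            push_cast at hz1 hB
            omega
          obtain ⟨y, hy⟩ := h1
          refine ⟨y, ?_⟩
          rw [hz] at h
          have h3 : ((z + B : ℤ) : ℚ) = 2 * y := by exact_mod_cast hy
          push_cast at h h3
          have h4 : (2 : ℚ) ^ (0 + 1 - 1) = 1 := by norm_num
          rw [h4]
          linarith
        · obtain ⟨z, hz⟩ := key.2 rfl hd
          refine ⟨z + (2 : ℤ) ^ (d - 1) * B, ?_⟩
          have h4 : (2 : ℚ) ^ (d + 1 - 1) = 2 ^ (d - 1) * 2 := by
            rw [← pow_succ]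
            congr 1
            omega
          push_cast at h
          rw [h4, mul_assoc, h]
          push_cast
          rw [← hz]
          ring

end Pool.CND
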